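import Pool.Agent.H174.GP.StH

/-!
# Project GP (helper174), task bback: time reversal and local bound
-/

set_option autoImplicit false

open MeasureTheory ProbabilityTheory Finset Filter Topology

namespace Pool.Agent.H402.GP174

open Pool.Agent.H174.GP

theorem S_meas (j : ℕ) : Measurable (fun ω : ℕ → ℝ => S ω j) := by
  unfold S
  exact Finset.measurable_sum _ fun i _ => measurable_pi_apply i

theorem Iw_meas (k : ℕ) : Measurable (fun ω : ℕ → ℝ => Iw ω k) := by
  unfold Iw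
  exact Finset.measurable_sum _ fun i _ => S_meas i

theorem S_zero (ω : ℕ → ℝ) : S ω 0 = 0 := by simp [S]

theorem S_succ (ω : ℕ → ℝ) (n : ℕ) : S ω (n + 1) = S ω n + ω (n + 1) := by
  unfold S
  exact Finset.sum_Icc_succ_top (by omega) _

theorem Iw_succ (ω : ℕ → ℝ) (n : ℕ) : Iw ω (n + 1) = Iw ω n + S ω (n + 1) := by
  unfold Iw
  exact Finset.sum_Icc_succ_top (by omega) _

/-- an involution of the coordinates and a change of all signs -/
def rv (ρ : ℕ → ℕ) (ω : ℕ → ℝ) (j : ℕ) : ℝ := -ω (ρ j)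

theorem rv_meas (ρ : ℕ → ℕ) : Measurable (rv ρ) :=
  measurable_pi_lambda _ fun j => (measurable_pi_apply (ρ j)).neg

theorem rv_map (h : S_L3) {ρ : ℕ → ℕ} (hρ : Function.Involutive ρ) :
    Measure.map (rv ρ) PP = PP := by
  classical
  unfold PP
  refine Measure.eq_infinitePi _ fun s t ht => ?_
  rw [Measure.map_apply (rv_meas ρ) (MeasurableSet.pi s.countable_toSet fun i _ => ht i)]
  have hpre : rv ρ ⁻¹' (Set.pi (s : Set ℕ) t) =
      Set.pi ((s.image ρ : Finset ℕ) : Set ℕ) (fun j => (fun x : ℝ => -x) ⁻¹' t (ρ j)) := by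
    ext ω
    simp only [Set.mem_preimage, Set.mem_pi, Finset.mem_coe, Finset.mem_image, rv]
    constructor
    · rintro h1 _ ⟨i, hi, rfl⟩
      rw [hρ i]
      exact h1 i hi
    · intro h1 i hi
      have h2 := h1 (ρ i) ⟨i, hi, rfl⟩
      rw [hρ i] at h2
      exact h2
  rw [hpre, Measure.infinitePi_pi _ fun i _ => measurable_neg (ht (ρ i)),
    Finset.prod_image fun a _ b _ hab => hρ.injective hab]
  refine Finset.prod_congr rfl fun i _ => ?_
  rw [hρ i, ← Measure.map_apply measurable_neg (ht i)]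
  have h1 : Measure.map (fun x : ℝ => -x) lap = lap := h.1
  exact congrFun (congrArg DFunLike.coe h1) (t i)

/-- the reflection of `[1, m]` -/
def rf (m j : ℕ) : ℕ := if 1 ≤ j ∧ j ≤ m then m + 1 - j else j

theorem rf_invol (m : ℕ) : Function.Involutive (rf m) := by
  intro j
  unfold rf
  split_ifs <;> omega

theorem S_rv (m : ℕ) (ω : ℕ → ℝ) (j : ℕ) (hj : j ≤ m) :
    S (rv (rf m) ω) j = S ω (m - j) - S ω m := by
  induction j with
  | zero => rw [S_zero, Nat.sub_zero, sub_self]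
  | succ j ih =>
    rw [S_succ, ih (by omega)]
    have h1 : rv (rf m) ω (j + 1) = -ω (m - j) := by
      unfold rv rf
      rw [if_pos ⟨by omega, hj⟩]
      congr 2
      omega
    have h2 : m - j = m - (j + 1) + 1 := by omega
    rw [h1, h2, S_succ]
    ring

theorem sum_S (ω : ℕ → ℝ) (j : ℕ) : ∑ l ∈ Finset.range (j + 1), S ω l = Iw ω j := by
  induction j with
  | zero => simp [S_zero, Iw]
  | succ j ih => rw [Finset.sum_range_succ, ih, Iw_succ]

theorem sum_rv (m : ℕ) (ω : ℕ → ℝ) (k : ℕ) (hk : k ≤ m) :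
    ∑ j ∈ Finset.Ioc (m - k) m, S (rv (rf m) ω) j =
      ∑ l ∈ Finset.range k, S ω l - k * S ω m := by
  induction k with
  | zero => simp
  | succ k ih =>
    have h1 : m - k = m - (k + 1) + 1 := by omega
    rw [← Finset.sum_Ioc_consecutive _ (show m - (k + 1) ≤ m - k by omega) (by omega), ih (by omega),
      Finset.sum_range_succ, h1, Nat.Ioc_succ_singleton, Finset.sum_singleton, ← h1,
      S_rv m ω _ (by omega)]
    have h2 : m - (m - k) = k := by omega
    rw [h2]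
    push_cast
    ring

/-- the event of the first half -/
def E1 (h : ℕ) (B : ℝ) : Set (ℕ → ℝ) := {ω | ∀ j ∈ Finset.Icc 1 h, -(((j : ℝ) + 1) * B) ≤ Iw ω j}

theorem E1_meas (h : ℕ) (B : ℝ) : MeasurableSet (E1 h B) := by
  have h1 : E1 h B = ⋂ j ∈ Finset.Icc 1 h, {ω | -(((j : ℝ) + 1) * B) ≤ Iw ω j} := by
    ext ω
    simp only [E1, Set.mem_iInter]
    rfl
  rw [h1]
  exact Finset.measurableSet_biInter _ fun j _ => measurableSet_le measurable_const (Iw_meas j)

theorem S_dep {ω ω' : ℕ → ℝ} {h : ℕ} (H : ∀ j ∈ Finset.Icc 1 h, ω j = ω' j) {j : ℕ} (hj : j ≤ h) :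
    S ω j = S ω' j := by
  unfold S
  refine Finset.sum_congr rfl fun i hi => H i ?_
  rw [Finset.mem_Icc] at hi ⊢
  omega

theorem Iw_dep {ω ω' : ℕ → ℝ} {h : ℕ} (H : ∀ j ∈ Finset.Icc 1 h, ω j = ω' j) {j : ℕ} (hj : j ≤ h) :
    Iw ω j = Iw ω' j := by
  unfold Iw
  refine Finset.sum_congr rfl fun i hi => S_dep H ?_
  rw [Finset.mem_Icc] at hi
  omega

theorem S_sub (ω : ℕ → ℝ) {h m : ℕ} (hm : h ≤ m) :
    S ω m - S ω h = ∑ j ∈ Finset.Ioc h m, ω j := by
  induction m, hm using Nat.le_induction with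
  | base => simp
  | succ m hm ih =>
    rw [S_succ, ← Finset.sum_Ioc_consecutive _ hm (Nat.le_succ m), ← ih, Nat.Ioc_succ_singleton,
      Finset.sum_singleton]
    ring

/-- the local bound, conditionally on the first half -/
theorem local_bound {C : ℝ} (hC : 0 < C) (h1 : ∀ (a N : ℕ) (y l : ℝ), 1 ≤ N → 0 ≤ l →
    PP.real {ω | y ≤ S ω (a + N) - S ω a ∧ S ω (a + N) - S ω a ≤ y + l} ≤
      C * (1 + l) / Real.sqrt N) (h3 : S_indep) {h m : ℕ} (hm : h < m) {B : ℝ} (hB : 0 ≤ B) :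
    PP.real (E1 h B ∩ {ω | -B ≤ S ω m ∧ S ω m ≤ 0}) ≤
      C * (2 + B) / Real.sqrt ((m - h : ℕ) : ℝ) * PP.real (E1 h B) := by
  obtain ⟨c, hc⟩ : ∃ c, c = C * (2 + B) / Real.sqrt ((m - h : ℕ) : ℝ) := ⟨_, rfl⟩
  have hc0 : 0 ≤ c := by rw [hc]; positivity
  rw [← hc]
  obtain ⟨X, hX⟩ : ∃ X : Set (ℕ → ℝ), X = {ω | -B ≤ S ω m ∧ S ω m ≤ 0} := ⟨_, rfl⟩
  rw [← hX]
  obtain ⟨F, hF⟩ : ∃ F : ℤ → Set (ℕ → ℝ), F = fun i => E1 h B ∩ {ω | ⌊S ω h⌋ = i} := ⟨_, rfl⟩
  have hFm : ∀ i, MeasurableSet (F i) := by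
    intro i
    rw [hF]
    refine (E1_meas h B).inter ?_
    exact (Int.measurable_floor.comp (S_meas h)) (measurableSet_singleton i)
  have hFd : Pairwise (Function.onFun Disjoint F) := by
    intro i j hij
    rw [hF]
    refine Set.disjoint_left.2 fun ω hω hω' => hij ?_
    exact hω.2.symm.trans hω'.2
  have hFu : ⋃ i, F i = E1 h B := by
    rw [hF]
    ext ω
    simp only [Set.mem_iUnion]
    exact ⟨fun ⟨i, hi⟩ => hi.1, fun hω => ⟨⌊S ω h⌋, hω, rfl⟩⟩
  -- one piece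
  have hpiece : ∀ i, PP (F i ∩ X) ≤ ENNReal.ofReal c * PP (F i) := by
    intro i
    obtain ⟨G, hG⟩ : ∃ G : Set (ℕ → ℝ), G = {ω | -B - i - 1 ≤ S ω m - S ω h ∧
      S ω m - S ω h ≤ -B - i - 1 + (1 + B)} := ⟨_, rfl⟩
    have hsub : F i ∩ X ⊆ F i ∩ G := by
      rintro ω ⟨hω1, hω2⟩
      refine ⟨hω1, ?_⟩
      rw [hF] at hω1
      rw [hX] at hω2
      rw [hG]
      have h4 : ⌊S ω h⌋ = i := hω1.2
      have h5 : (i : ℝ) ≤ S ω h := by rw [← h4]; exact Int.floor_le _
      have h6 : S ω h < i + 1 := by rw [← h4]; exact Int.lt_floor_add_one _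
      have h7 := hω2.1
      have h8 := hω2.2
      exact ⟨by linarith, by linarith⟩
    have hGm : MeasurableSet G := by
      rw [hG]
      exact (measurableSet_le measurable_const ((S_meas m).sub (S_meas h))).inter
        (measurableSet_le ((S_meas m).sub (S_meas h)) measurable_const)
    have hGr : PP.real G ≤ c := by
      have h4 := h1 h (m - h) (-B - i - 1) (1 + B) (by omega) (by linarith)
      have h5 : h + (m - h) = m := by omega
      rw [h5, ← hG] at h4
      rw [hc]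
      have h6 : (1 : ℝ) + (1 + B) = 2 + B := by ring
      rw [h6] at h4
      exact h4
    have hind : PP.real (F i ∩ G) = PP.real (F i) * PP.real G := by
      refine h3 (Finset.Icc 1 h) (Finset.Ioc h m) (F i) G ?_ (hFm i) hGm ?_ ?_
      · rw [Finset.disjoint_left]
        intro a ha hb
        rw [Finset.mem_Icc] at ha
        rw [Finset.mem_Ioc] at hb
        omega
      · intro ω ω' H hω
        rw [hF] at hω ⊢
        refine ⟨fun j hj => ?_, ?_⟩
        · rw [← Iw_dep H (Finset.mem_Icc.1 hj).2]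
          exact hω.1 j hj
        · show ⌊S ω' h⌋ = i
          rw [← S_dep H le_rfl]
          exact hω.2
      · intro ω ω' H hω
        rw [hG] at hω ⊢
        have h4 : S ω m - S ω h = S ω' m - S ω' h := by
          rw [S_sub ω hm.le, S_sub ω' hm.le]
          exact Finset.sum_congr rfl H
        show -B - i - 1 ≤ S ω' m - S ω' h ∧ S ω' m - S ω' h ≤ -B - i - 1 + (1 + B)
        rw [← h4]
        exact hω
    have h4 : PP.real (F i ∩ X) ≤ c * PP.real (F i) := by
      calc PP.real (F i ∩ X) ≤ PP.real (F i ∩ G) := measureReal_mono hsub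
        _ = PP.real (F i) * PP.real G := hind
        _ ≤ PP.real (F i) * c := mul_le_mul_of_nonneg_left hGr measureReal_nonneg
        _ = c * PP.real (F i) := mul_comm _ _
    have h5 := ENNReal.ofReal_le_ofReal h4
    rw [ENNReal.ofReal_mul hc0, ofReal_measureReal, ofReal_measureReal] at h5
    exact h5
  have hsum : PP (E1 h B ∩ X) ≤ ENNReal.ofReal c * PP (E1 h B) := by
    calc PP (E1 h B ∩ X) = PP (⋃ i, F i ∩ X) := by rw [← Set.iUnion_inter, hFu]
      _ ≤ ∑' i, PP (F i ∩ X) := measure_iUnion_le _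
      _ ≤ ∑' i, ENNReal.ofReal c * PP (F i) := ENNReal.tsum_le_tsum hpiece
      _ = ENNReal.ofReal c * ∑' i, PP (F i) := ENNReal.tsum_mul_left
      _ = ENNReal.ofReal c * PP (⋃ i, F i) := by rw [measure_iUnion hFd hFm]
      _ = ENNReal.ofReal c * PP (E1 h B) := by rw [hFu]
  have h4 := ENNReal.toReal_mono
    (ENNReal.mul_ne_top ENNReal.ofReal_ne_top (measure_ne_top PP _)) hsum
  rw [ENNReal.toReal_mul, ENNReal.toReal_ofReal hc0] at h4
  exact h4

theorem gp_bback (h1 : S_conc) (h2 : S_L3) (h3 : S_indep) : Pool.Agent.H174.GP.S_bback := by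
  obtain ⟨C, hC, hconc⟩ := h1
  refine ⟨4 * C, by positivity, fun m B hm hB => ?_⟩
  -- time reversal
  obtain ⟨A, hA⟩ : ∃ A : Set (ℕ → ℝ), A = {ω | 0 ≤ S ω m ∧ S ω m ≤ B ∧
    ∀ k ∈ Finset.Icc 1 m, 0 ≤ ∑ j ∈ Finset.Ioc (m - k) m, S ω j} := ⟨_, rfl⟩
  have hAm : MeasurableSet A := by
    have h4 : A = {ω | 0 ≤ S ω m} ∩ ({ω | S ω m ≤ B} ∩
        ⋂ k ∈ Finset.Icc 1 m, {ω | 0 ≤ ∑ j ∈ Finset.Ioc (m - k) m, S ω j}) := by
      rw [hA]
      ext ω
      simp only [Set.mem_inter_iff, Set.mem_iInter]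
      rfl
    rw [h4]
    refine (measurableSet_le measurable_const (S_meas m)).inter
      ((measurableSet_le (S_meas m) measurable_const).inter ?_)
    exact Finset.measurableSet_biInter _ fun k _ => measurableSet_le measurable_const
      (Finset.measurable_sum _ fun j _ => S_meas j)
  have hrev : PP.real A = PP.real (rv (rf m) ⁻¹' A) := by
    have h4 : PP A = PP (rv (rf m) ⁻¹' A) := by
      rw [← Measure.map_apply (rv_meas _) hAm, rv_map h2 (rf_invol m)]
    rw [Measure.real, Measure.real, h4]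
  have hsub : rv (rf m) ⁻¹' A ⊆ E1 (m / 2) B ∩ {ω | -B ≤ S ω m ∧ S ω m ≤ 0} := by
    intro ω hω
    rw [hA] at hω
    obtain ⟨ha, hb, hk⟩ := hω
    rw [S_rv m ω m le_rfl, Nat.sub_self, S_zero, zero_sub] at ha hb
    refine ⟨fun j hj => ?_, by linarith, by linarith⟩
    rw [Finset.mem_Icc] at hj
    have h4 := hk (j + 1) (Finset.mem_Icc.2 ⟨by omega, by omega⟩)
    rw [sum_rv m ω (j + 1) (by omega), sum_S] at h4
    push_cast at h4
    have h5 : ((j : ℝ) + 1) * (-S ω m) ≤ ((j : ℝ) + 1) * B :=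
      mul_le_mul_of_nonneg_left hb (by positivity)
    linarith
  have hb : bI m B = PP.real A := by rw [hA]; rfl
  have hP : aP (m / 2) B = PP.real (E1 (m / 2) B) := rfl
  rw [hb, hrev, hP]
  have h5 : PP.real (rv (rf m) ⁻¹' A) ≤
      C * (2 + B) / Real.sqrt ((m - m / 2 : ℕ) : ℝ) * PP.real (E1 (m / 2) B) :=
    (measureReal_mono hsub).trans (local_bound hC hconc h3 (by omega) hB)
  refine h5.trans (mul_le_mul_of_nonneg_right ?_ measureReal_nonneg)
  have hm0 : (0 : ℝ) < m := by exact_mod_cast hm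
  have h6 : (m : ℝ) ≤ 4 * ((m - m / 2 : ℕ) : ℝ) := by
    have : m ≤ 4 * (m - m / 2) := by omega
    exact_mod_cast this
  have h7 : Real.sqrt m ≤ 2 * Real.sqrt ((m - m / 2 : ℕ) : ℝ) := by
    have h8 : Real.sqrt (4 * ((m - m / 2 : ℕ) : ℝ)) = 2 * Real.sqrt ((m - m / 2 : ℕ) : ℝ) := by
      rw [Real.sqrt_mul (by norm_num), show (4 : ℝ) = 2 ^ 2 by norm_num,
        Real.sqrt_sq (by norm_num)]
    rw [← h8]
    exact Real.sqrt_le_sqrt h6
  have h9 : 0 < Real.sqrt m := Real.sqrt_pos.2 hm0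
  have h10 : 0 < Real.sqrt ((m - m / 2 : ℕ) : ℝ) := by linarith
  rw [div_le_div_iff₀ h10 h9]
  have h11 : C * (2 + B) ≤ 2 * C * (1 + B) := by nlinarith
  calc C * (2 + B) * Real.sqrt m ≤ 2 * C * (1 + B) * Real.sqrt m :=
        mul_le_mul_of_nonneg_right h11 h9.le
    _ ≤ 2 * C * (1 + B) * (2 * Real.sqrt ((m - m / 2 : ℕ) : ℝ)) :=
        mul_le_mul_of_nonneg_left h7 (by positivity)
    _ = 4 * C * (1 + B) * Real.sqrt ((m - m / 2 : ℕ) : ℝ) := by ring

end Pool.Agent.H402.GP174
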